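import Pool.Agent.H24.SCG3.Stmts6
import Pool.Agent.H62.SCG2.AUIZ
import Pool.Agent.H67.SCG2.UPQ

/-!
Module EAUI of the project SCG3: the involutions of `AutG F` are in the range of `iota F`.
-/

namespace Pool.Agent.H66.SCG3

open Matrix Pool.SCG Pool.Agent.H62.SCG2
open Pool.Agent.H62.SCG (fieldAut_mul fieldAut_one)
open Pool.Agent.H67.SCG2 (diagAut_inner iota_inn' iota_outer')

/-- a finite field of non-square order has no automorphism of order two -/
theorem no_order_two {F : Type} [Field F] [Finite F] (hq : ¬ IsSquare (Nat.card F))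
    (σ : F ≃+* F) (hσ : σ * σ = 1) : σ = 1 := by
  by_contra hne
  classical
  haveI : Fact (Nat.Prime 2) := ⟨Nat.prime_two⟩
  have hord : orderOf σ = 2 := orderOf_eq_prime (by rw [pow_two]; exact hσ) hne
  let G : Subgroup (F ≃+* F) := Subgroup.zpowers σ
  haveI : Finite (F ≃+* F) := by
    refine Finite.of_injective (fun f : F ≃+* F => (f : F → F)) ?_
    intro f g h
    exact DFunLike.coe_injective h
  haveI : Fintype G := Fintype.ofFinite G
  have hG : Fintype.card G = 2 := by
    rw [← Nat.card_eq_fintype_card]
    show Nat.card (Subgroup.zpowers σ) = 2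
    rw [Nat.card_zpowers, hord]
  have hfin : Module.finrank (FixedPoints.subfield G F) F = Fintype.card G :=
    FixedPoints.finrank_eq_card G F
  have hc := Module.natCard_eq_pow_finrank (K := FixedPoints.subfield G F) (V := F)
  rw [hfin, hG] at hc
  exact hq ⟨_, by rw [hc, pow_two]⟩

theorem eaui_thm (hN : AUNZStmt) (hF : AUFZStmt) (hA : EARStmt) : EAUIStmt := by
  intro F _ _ hev α hα hαα
  have hcube := (hA F hev).2.1
  obtain ⟨P, σ, h | h⟩ := hN F α hα
  · have e1 : diagAut P * fieldAut σ * (diagAut P * fieldAut σ) =
        diagAut (P * Matrix.GeneralLinearGroup.map (σ : F →+* F) P) * fieldAut (σ * σ) := by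
      calc diagAut P * fieldAut σ * (diagAut P * fieldAut σ)
          = diagAut P * (fieldAut σ * diagAut P) * fieldAut σ := by simp only [mul_assoc]
        _ = _ := by
          rw [field_diag, ← fieldAut_mul, ← diag_mul]
          simp only [mul_assoc]
    have hσ := no_order_two hev.2 σ ((hF F _ _).1 (by rw [← e1, ← h]; exact hαα))
    rw [hσ, fieldAut_one, mul_one] at h
    obtain ⟨m, hm⟩ := diagAut_inner hcube P
    exact ⟨inn m, by rw [iota_inn', h, hm]⟩
  · have e1 : graphAut F * diagAut P * fieldAut σ * (graphAut F * diagAut P * fieldAut σ) =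
        diagAut (tP P * Matrix.GeneralLinearGroup.map (σ : F →+* F) P) * fieldAut (σ * σ) := by
      calc graphAut F * diagAut P * fieldAut σ * (graphAut F * diagAut P * fieldAut σ)
          = graphAut F * diagAut P * (fieldAut σ * graphAut F) * diagAut P * fieldAut σ := by
            simp only [mul_assoc]
        _ = (graphAut F * diagAut P * graphAut F) * (fieldAut σ * diagAut P) * fieldAut σ := by
            rw [field_graph]
            simp only [mul_assoc]
        _ = _ := by
          rw [field_diag, graph_diag_graph, ← fieldAut_mul, ← diag_mul]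
          simp only [mul_assoc]
    have hσ := no_order_two hev.2 σ ((hF F _ _).1 (by rw [← e1, ← h]; exact hαα))
    rw [hσ, fieldAut_one, mul_one] at h
    obtain ⟨m, hm⟩ := diagAut_inner hcube P
    exact ⟨⟨m, true⟩, by rw [iota_outer', h, hm]⟩

end Pool.Agent.H66.SCG3
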