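import Pool.Agent.H24.SCG3.Stmts6
import Pool.Agent.H64.SCG.IOT

/-!
The action of `Cor F` on `SL3 F` when `F` has no nontrivial cube root of unity (module EIOT of the
project SCG3).
-/

namespace Pool.Agent.H66.SCG3

open Pool.SCG Matrix Pool.Agent.H64.SCG

variable {F : Type} [Field F]

theorem center_bot' (hF : ∀ x : F, x ^ 3 = 1 → x = 1) : Subgroup.center (SL3 F) = ⊥ := by
  rw [eq_bot_iff]
  intro A hA
  rw [Matrix.SpecialLinearGroup.mem_center_iff] at hA
  obtain ⟨r, hr, hA⟩ := hA
  rw [Fintype.card_fin] at hr
  have h1 := hF r hr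
  rw [Subgroup.mem_bot]
  apply Subtype.ext
  rw [← hA, h1]
  simp

/-- Module EIOT. -/
theorem eiot_thm : Pool.SCG.EIOTStmt := by
  intro F _ hF
  have hinn : ∀ m : SL3 F, iota F (inn m) = MulAut.conj m := iota_inn
  refine ⟨?_, ?_, hinn⟩
  · rw [injective_iff_map_eq_one]
    rintro ⟨m, s⟩ h
    cases s with
    | true => exact absurd h (outer_ne_one m)
    | false =>
      have h1 : MulAut.conj m = 1 := by rw [← hinn m]; exact h
      have h2 : m ∈ Subgroup.center (SL3 F) := by
        rw [Subgroup.mem_center_iff]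
        intro g
        have h3 := congrArg (fun e : MulAut (SL3 F) => e g) h1
        simp only [MulAut.conj_apply, MulAut.one_apply] at h3
        calc g * m = (m * g * m⁻¹) * m := by rw [h3]
          _ = m * g := by rw [inv_mul_cancel_right]
      rw [center_bot' hF, Subgroup.mem_bot] at h2
      rw [h2]
      rfl
  · apply le_antisymm
    · rintro e ⟨⟨m, s⟩, rfl⟩
      have hc : MulAut.conj m ∈ GraphExt F :=
        Subgroup.subset_closure (Or.inl ⟨m, rfl⟩)
      cases s with
      | false =>
        have : iota F (⟨m, false⟩ : Cor F) = MulAut.conj m := hinn m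
        rw [this]; exact hc
      | true =>
        rw [iota_outer]
        exact Subgroup.mul_mem _ (Subgroup.subset_closure (Or.inr rfl)) hc
    · rw [GraphExt, Subgroup.closure_le]
      rintro e (⟨m, rfl⟩ | h)
      · exact ⟨inn m, hinn m⟩
      · rw [Set.mem_singleton_iff] at h
        refine ⟨⟨1, true⟩, ?_⟩
        rw [iota_outer, h, map_one, mul_one]

end Pool.Agent.H66.SCG3
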